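import Pool.Agent.H53.GM.Targets
import Pool.Agent.H56.NR.RSS

/-!
Board gm2_modules, row GRW: a lemma of the kind of the theorem of Graham and Rothschild.
-/

set_option autoImplicit false

namespace Pool.Agent.H56.GM.GRW

/-- the threshold of a strictly monotone sequence -/
theorem thr {b n : ℕ} (β : Fin b → Fin n) (hβ : StrictMono β) (x : Fin n) :
    ∃ t : ℕ, t ≤ b ∧ ∀ k : Fin b, β k < x ↔ k.1 < t := by
  classical
  have hex : ∃ t : ℕ, b ≤ t ∨ ∃ h : t < b, x ≤ β ⟨t, h⟩ := ⟨b, Or.inl le_rfl⟩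
  refine ⟨Nat.find hex, Nat.find_min' hex (Or.inl le_rfl), fun k => ⟨fun h => ?_, fun h => ?_⟩⟩
  · by_contra hk
    rw [not_lt] at hk
    rcases Nat.find_spec hex with h1 | ⟨h1, h2⟩
    · exact absurd k.2 (not_lt.2 (h1.trans hk))
    · have h3 : β ⟨Nat.find hex, h1⟩ ≤ β k := hβ.monotone hk
      exact absurd h (not_lt.2 (h2.trans h3))
  · have h1 := Nat.find_min hex h
    by_contra hk
    exact h1 (Or.inr ⟨k.2, not_lt.1 hk⟩)

/-- the boundaries -/
def bd (y : ℕ → ℕ) (i : ℕ) : ℕ :=
  if i % 2 = 0 then 4 * (i / 2) + (if y (i / 2) = 1 then 0 else 2) else 4 * (i / 2) + 3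

theorem bd_even (y : ℕ → ℕ) (j : ℕ) : bd y (2 * j) = 4 * j + (if y j = 1 then 0 else 2) := by
  have h1 : 2 * j % 2 = 0 := by omega
  have h2 : 2 * j / 2 = j := by omega
  rw [bd, if_pos h1, h2]

theorem bd_odd (y : ℕ → ℕ) (j : ℕ) : bd y (2 * j + 1) = 4 * j + 3 := by
  have h1 : ¬ (2 * j + 1) % 2 = 0 := by omega
  have h2 : (2 * j + 1) / 2 = j := by omega
  rw [bd, if_neg h1, h2]

theorem bd_mono (y : ℕ → ℕ) : StrictMono (bd y) := by
  refine strictMono_nat_of_lt_succ fun i => ?_
  rcases Nat.even_or_odd' i with ⟨j, h | h⟩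
  · rw [h, bd_even, bd_odd]
    split_ifs <;> omega
  · rw [h, bd_odd, show 2 * j + 1 + 1 = 2 * (j + 1) by ring, bd_even]
    split_ifs <;> omega

theorem bd_lt {y : ℕ → ℕ} {i P : ℕ} (h : i < 2 * P) : bd y i < 4 * P := by
  rcases Nat.even_or_odd' i with ⟨j, h1 | h1⟩
  · rw [h1, bd_even]
    split_ifs <;> omega
  · rw [h1, bd_odd]
    omega

/-- the number of the boundaries below `t` -/
def cn (y : ℕ → ℕ) (t : ℕ) : ℕ :=
  2 * (t / 4) + (if t % 4 = 0 then 0 else if t % 4 = 3 then 1 else if y (t / 4) = 1 then 1 else 0)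

theorem lt_cn (y : ℕ → ℕ) (t i : ℕ) : bd y i < t ↔ i < cn y t := by
  obtain ⟨J, r, hr, ht⟩ : ∃ J r, r < 4 ∧ t = 4 * J + r := ⟨t / 4, t % 4, by omega, by omega⟩
  have h1 : t / 4 = J := by omega
  have h2 : t % 4 = r := by omega
  rw [cn, h1, h2]
  rcases Nat.even_or_odd' i with ⟨j, h | h⟩
  · rw [h, bd_even]
    rcases lt_trichotomy j J with h3 | h3 | h3
    · split_ifs <;> omega
    · subst h3
      split_ifs <;> omega
    · split_ifs <;> omega
  · rw [h, bd_odd]
    split_ifs <;> omega

/-- the boundaries and one more point -/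
def fn (y : ℕ → ℕ) (J k : ℕ) : ℕ :=
  if k < 2 * J + y J then bd y k else if k = 2 * J + y J then 4 * J + 1 else bd y (k - 1)

theorem fn_mono (y : ℕ → ℕ) (J : ℕ) (hy : y J = 0 ∨ y J = 1) : StrictMono (fn y J) := by
  refine strictMono_nat_of_lt_succ fun k => ?_
  have hm := bd_mono y
  have e0 := bd_even y J
  have e1 := bd_odd y J
  have e2 : ∀ i, i < 2 * J → bd y i < 4 * J := fun i hi => bd_lt hi
  have e3 : ∀ i, 2 * J ≤ i → bd y (2 * J) ≤ bd y i := fun i hi => hm.monotone hi
  have e4 : ∀ i, 2 * J + 1 ≤ i → bd y (2 * J + 1) ≤ bd y i := fun i hi => hm.monotone hi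
  unfold fn
  rcases hy with hy | hy
  · rw [hy] at e0 ⊢
    rw [if_neg (by norm_num)] at e0
    by_cases h1 : k + 1 < 2 * J + 0
    · rw [if_pos (by omega), if_pos h1]
      exact hm (Nat.lt_succ_self k)
    · by_cases h2 : k + 1 = 2 * J + 0
      · rw [if_pos (by omega), if_neg h1, if_pos h2]
        have := e2 k (by omega)
        omega
      · rw [if_neg h1, if_neg h2, if_neg (by omega)]
        by_cases h3 : k = 2 * J + 0
        · rw [if_pos h3, h3]
          simp only [add_zero, Nat.add_sub_cancel]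
          omega
        · rw [if_neg h3]
          exact hm (by omega)
  · rw [hy] at e0 ⊢
    rw [if_pos rfl] at e0
    by_cases h1 : k + 1 < 2 * J + 1
    · rw [if_pos (by omega), if_pos h1]
      exact hm (Nat.lt_succ_self k)
    · by_cases h2 : k + 1 = 2 * J + 1
      · rw [if_pos (by omega), if_neg h1, if_pos h2]
        have h3 : k = 2 * J := by omega
        rw [h3]
        omega
      · rw [if_neg h1, if_neg h2, if_neg (by omega)]
        by_cases h3 : k = 2 * J + 1
        · rw [if_pos h3, h3]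
          simp only [Nat.add_sub_cancel]
          omega
        · rw [if_neg h3]
          exact hm (by omega)

theorem fn_lt {y : ℕ → ℕ} {J k P : ℕ} (hJ : J < P) (hy : y J ≤ 1) (hk : k < 2 * P + 1) :
    fn y J k < 4 * P := by
  unfold fn
  split_ifs with h1 h2
  · exact bd_lt (by omega)
  · omega
  · exact bd_lt (by omega)

/-- the word of a sequence of boundaries -/
def word {m n : ℕ} (A : Fin (m + 1) → Fin n) (i : Fin (m + 1)) (x : Fin n) : Fin 2 :=
  ⟨(Finset.univ.filter fun k : Fin m => A (i.succAbove k) < x).card % 2, Nat.mod_lt _ (by norm_num)⟩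

theorem pf_GRW : Pool.Agent.H53.GM.T_GRW := by
  classical
  intro p Y _ hp
  rcases isEmpty_or_nonempty Y with hY | hY
  · exact ⟨1, le_rfl, fun χ => (IsEmpty.false (χ (fun _ => 0) 0)).elim⟩
  haveI : Fintype Y := Fintype.ofFinite Y
  set P : ℕ := Fintype.card (Y × Y) * p + 1 with hP
  obtain ⟨n, hn⟩ := Pool.Agent.H56.NR.pf_RSS (2 * P + 1) (4 * P) (Fin (2 * P + 1) → Y)
  have hP0 : 0 < P := by omega
  refine ⟨n, ?_, fun χ => ?_⟩
  · obtain ⟨β, -, -⟩ := hn (fun _ _ => Classical.arbitrary Y)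
    have := (β ⟨0, by omega⟩).2
    omega
  obtain ⟨β, hβ, hcol⟩ := hn (fun A i => χ (word A i) (A i))
  -- the colour
  have hid : StrictMono (fun i : Fin (2 * P + 1) => (⟨i.1, by omega⟩ : Fin (4 * P))) :=
    fun i j h => h
  set γ : Fin (2 * P + 1) → Y := fun i => χ (word (fun i : Fin (2 * P + 1) =>
    β (⟨i.1, by omega⟩ : Fin (4 * P))) i) (β (⟨i.1, by omega⟩ : Fin (4 * P))) with hγ
  -- the pigeonhole principle
  obtain ⟨c, hc⟩ := Fintype.exists_lt_card_fiber_of_mul_lt_card
    (fun j : Fin P => (γ ⟨2 * j.1, by omega⟩, γ ⟨2 * j.1 + 1, by omega⟩)) (n := p)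
    (by rw [Fintype.card_fin]; omega)
  obtain ⟨g, hg⟩ : ∃ g : Fin p → Fin P, Function.Injective g ∧ ∀ j,
      γ ⟨2 * (g j).1, by have := (g j).2; omega⟩ = c.1 ∧
      γ ⟨2 * (g j).1 + 1, by have := (g j).2; omega⟩ = c.2 := by
    set T := Finset.univ.filter fun j : Fin P =>
      (γ ⟨2 * j.1, by omega⟩, γ ⟨2 * j.1 + 1, by omega⟩) = c with hT
    obtain ⟨e⟩ := Function.Embedding.nonempty_of_card_le (α := Fin p) (β := T)
      (by rw [Fintype.card_fin, Fintype.card_coe]; exact hc.le)
    refine ⟨fun j => (e j).1, fun i j h => e.injective (Subtype.ext h), fun j => ?_⟩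
    have h1 := (Finset.mem_filter.1 (e j).2).2
    exact ⟨congrArg Prod.fst h1, congrArg Prod.snd h1⟩
  obtain ⟨hginj, hgc⟩ := hg
  -- the words
  have ht := thr β hβ
  choose t ht1 ht2 using ht
  set ext : (Fin p → Fin 2) → ℕ → ℕ := fun y J =>
    if h : ∃ j, (g j).1 = J then (y h.choose).1 else 0 with hext
  have hext1 : ∀ y j, ext y (g j).1 = (y j).1 := by
    intro y j
    have h : ∃ j', (g j').1 = (g j).1 := ⟨j, rfl⟩
    rw [hext]
    simp only
    rw [dif_pos h]
    have h1 := hginj (Fin.ext h.choose_spec)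
    rw [h1]
  have hext2 : ∀ y J, ext y J ≤ 1 := by
    intro y J
    rw [hext]
    simp only
    split_ifs with h
    · have := (y h.choose).2
      omega
    · omega
  set S : (Fin p → Fin 2) → Fin n → Fin 2 := fun y x =>
    ⟨cn (ext y) (t x) % 2, Nat.mod_lt _ (by norm_num)⟩ with hS
  have hκ : ∀ J : Fin P, t (β ⟨4 * J.1 + 1, by omega⟩) = 4 * J.1 + 1 := by
    intro J
    have hJ := J.2
    set x := β ⟨4 * J.1 + 1, by omega⟩ with hx
    by_contra hne
    rcases Nat.lt_or_gt_of_ne hne with h1 | h1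
    · have h2 : β ⟨t x, by omega⟩ < x := hβ h1
      exact absurd ((ht2 x ⟨t x, by omega⟩).1 h2) (lt_irrefl _)
    · have h2 := (ht2 x ⟨4 * J.1 + 1, by omega⟩).2 h1
      exact absurd h2 (lt_irrefl _)
  refine ⟨S, fun j => β ⟨4 * (g j).1 + 1, by have := (g j).2; omega⟩, fun i => if i = 0 then c.1
    else c.2, ?_, ?_, ?_⟩
  · intro x
    obtain ⟨J, hJ⟩ : ∃ J, J = t x / 4 := ⟨_, rfl⟩
    by_cases h0 : t x % 4 = 0
    · refine Or.inl ⟨0, fun y => Fin.ext ?_⟩
      simp only [hS, cn, h0, if_true]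
      simp
    · by_cases h3 : t x % 4 = 3
      · refine Or.inl ⟨1, fun y => Fin.ext ?_⟩
        simp only [hS, cn, h3]
        norm_num
      · by_cases hex : ∃ j, (g j).1 = J
        · obtain ⟨j, hj⟩ := hex
          refine Or.inr ⟨j, fun y => Fin.ext ?_⟩
          simp only [hS, cn, if_neg h0, if_neg h3]
          rw [← hJ, ← hj, hext1]
          have := (y j).2
          split_ifs <;> omega
        · refine Or.inl ⟨0, fun y => Fin.ext ?_⟩
          simp only [hS, cn, if_neg h0, if_neg h3]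
          have h4 : ext y (t x / 4) = 0 := by
            rw [hext]
            simp only
            rw [dif_neg (by rw [← hJ]; exact hex)]
          rw [h4]
          norm_num
  · intro y j
    refine Fin.ext ?_
    simp only [hS]
    rw [hκ (g j), cn]
    have h1 : (4 * (g j).1 + 1) / 4 = (g j).1 := by omega
    have h2 : (4 * (g j).1 + 1) % 4 = 1 := by omega
    rw [h1, h2, hext1]
    have h5 : (y j).1 = 0 ∨ (y j).1 = 1 := by
      have := (y j).2
      omega
    rcases h5 with h5 | h5
    · rw [h5]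
      norm_num
    · rw [h5]
      norm_num
  · intro y j
    have hJ := (g j).2
    set J : ℕ := (g j).1 with hJd
    have hyJ : ext y J = (y j).1 := hext1 y j
    have hy01 : ext y J = 0 ∨ ext y J = 1 := by
      have := hext2 y J
      omega
    set f : Fin (2 * P + 1) → Fin (4 * P) := fun k =>
      ⟨fn (ext y) J k.1, fn_lt hJ (hext2 y J) k.2⟩ with hf
    have hfm : StrictMono f := fun a b h => fn_mono (ext y) J hy01 h
    have hidx : 2 * J + ext y J < 2 * P + 1 := by
      have := hext2 y J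
      omega
    have h1 := congrFun (hcol f _ hfm hid) ⟨2 * J + ext y J, hidx⟩
    simp only at h1
    have h2 : f ⟨2 * J + ext y J, hidx⟩ = ⟨4 * J + 1, by omega⟩ := by
      refine Fin.ext ?_
      change fn (ext y) J (2 * J + ext y J) = 4 * J + 1
      unfold fn
      rw [if_neg (lt_irrefl _), if_pos rfl]
    have h3 : word (fun i => β (f i)) ⟨2 * J + ext y J, hidx⟩ = S y := by
      funext x
      refine Fin.ext ?_
      simp only [word, hS]
      congr 1
      have h4 : (Finset.univ.filter fun k : Fin (2 * P) =>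
          β (f (Fin.succAbove ⟨2 * J + ext y J, hidx⟩ k)) < x) =
          Finset.univ.filter fun k : Fin (2 * P) => k.1 < cn (ext y) (t x) := by
        refine Finset.filter_congr fun k _ => ?_
        rw [ht2 x]
        have h5 : (f (Fin.succAbove ⟨2 * J + ext y J, hidx⟩ k)).1 = bd (ext y) k.1 := by
          simp only [hf, Fin.succAbove, fn]
          by_cases h6 : k.1 < 2 * J + ext y J
          · have h7 : k.castSucc < (⟨2 * J + ext y J, hidx⟩ : Fin (2 * P + 1)) := h6
            rw [if_pos h7, Fin.val_castSucc, if_pos h6]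
          · have h7 : ¬ k.castSucc < (⟨2 * J + ext y J, hidx⟩ : Fin (2 * P + 1)) := h6
            rw [if_neg h7, Fin.val_succ, if_neg (by omega), if_neg (by omega),
              Nat.add_sub_cancel]
        rw [h5, lt_cn]
      rw [h4]
      have h5 : cn (ext y) (t x) ≤ 2 * P := by
        by_contra h6
        rw [not_le] at h6
        have h7 := (lt_cn (ext y) (t x) (2 * P)).2 h6
        have h8 := ht1 x
        rw [bd_even] at h7
        omega
      rw [Fin.card_filter_val_lt]
      exact min_eq_right h5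
    rw [h2, h3] at h1
    rw [h1]
    change γ ⟨2 * J + ext y J, hidx⟩ = _
    rcases hy01 with h4 | h4
    · have h5 : y j = 0 := Fin.ext (by rw [← hyJ, h4]; rfl)
      have h6 : (fun i : Fin 2 => if i = 0 then c.1 else c.2) (y j) = c.1 := by
        rw [h5]
        exact if_pos rfl
      refine Eq.trans ?_ h6.symm
      rw [← (hgc j).1]
      congr 1
      exact Fin.ext (by simp only [h4]; omega)
    · have h5 : y j = 1 := Fin.ext (by rw [← hyJ, h4]; rfl)
      have h6 : (fun i : Fin 2 => if i = 0 then c.1 else c.2) (y j) = c.2 := by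
        rw [h5]
        exact if_neg (by decide)
      refine Eq.trans ?_ h6.symm
      rw [← (hgc j).2]
      congr 1
      exact Fin.ext (by simp only [h4]; omega)

end Pool.Agent.H56.GM.GRW
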