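import Pool.Agent.H53.GM.Targets

/-!
# Board gm2_modules, row MXS: restrictions of maximal types are maximal
-/

set_option autoImplicit false

namespace Pool.Agent.H56.GM

open Pool.Agent.H68.BP Pool.Agent.H58.SF Pool.Agent.H53.GC Pool.Agent.H53.GR Pool.Agent.H53.GM

theorem pf_MXS (hTPB : Pool.Agent.H53.GM.T_TPB) (hMXR : Pool.Agent.H53.GM.T_MXR) :
    Pool.Agent.H53.GM.T_MXS := by
  intro τ N F J W _ _ P M b e hH hP hM hsub
  obtain ⟨W0, hW0, M0, b0, hM0, rfl⟩ := hP.1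
  have hmx : Mx F (rs (Subtype.val : e → J) (tp N M0 b0)) :=
    hMXR τ N F J e Subtype.val (tp N M0 b0) hH Subtype.val_injective hP
  have e2 : tp N M0 (fun j : e => b0 j.1) = rs (Subtype.val : e → J) (tp N M0 b0) :=
    (hTPB τ N W0 W J e M0 M b0).2.1 Subtype.val
  rw [← e2] at hmx
  have h1 : tp N M0 (fun j : e => b0 j.1) ⊆ tp N M (fun j : e => b j.1) :=
    ((hTPB τ N W0 W J e M0 M b0).2.2.2 b e).1 hsub
  have h2 : tp N M (fun j : e => b j.1) = tp N M0 (fun j : e => b0 j.1) :=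
    hmx.2 _ ⟨W, inferInstance, M, fun j : e => b j.1, hM, rfl⟩ h1
  refine le_antisymm ?_ hsub
  exact ((hTPB τ N W W0 J e M M0 b).2.2.2 b0 e).2 h2.le

end Pool.Agent.H56.GM
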